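import Mathlib

set_option autoImplicit false

/-!
# Random embeddings into universal sequences of ordered graphs
-/

namespace Pool.Agent.Results.MP_37b92f_co.RandomEmbeddings

open Filter Topology

/-- A finite ordered graph: a simple graph on `{0 < 1 < ⋯ < n - 1}`. -/
structure OGraph where
  n : ℕ
  G : SimpleGraph (Fin n)

/-- The number of edges. -/
noncomputable def OGraph.e (H : OGraph) : ℕ := H.G.edgeSet.ncard

/-- The embeddings of `F` into `G`: order preserving injections that map edges to edges. -/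
def Emb (F G : OGraph) : Type :=
  {f : Fin F.n ↪o Fin G.n // ∀ u v, F.G.Adj u v → G.G.Adj (f u) (f v)}

/-- `F` embeds into the subgraph `G'` of `G` (with the inherited order). -/
def EmbedsIn (F G : OGraph) (G' : G.G.Subgraph) : Prop :=
  ∃ f : Fin F.n ↪o Fin G.n, (∀ u, f u ∈ G'.verts) ∧ ∀ u v, F.G.Adj u v → G'.Adj (f u) (f v)

/-- `ρ(F, G)`: the largest proportion of edges of an `F`-free subgraph of `G`. -/
noncomputable def rel (F G : OGraph) : ℝ :=
  sSup {x : ℝ | ∃ G' : G.G.Subgraph, ¬ EmbedsIn F G G' ∧ x = (G'.edgeSet.ncard : ℝ) / (G.e : ℝ)}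

/-- The relative Turán density of `F`. -/
noncomputable def rho (F : OGraph) : ℝ := sInf {x : ℝ | ∃ G : OGraph, 1 ≤ G.e ∧ x = rel F G}

/-- Universal sequences of ordered graphs (all with at least one edge). -/
def Universal (Gs : ℕ → OGraph) : Prop :=
  (∀ n, 1 ≤ (Gs n).e) ∧ ∀ F : OGraph, Tendsto (fun n => rel F (Gs n)) atTop (𝓝 (rho F))

/-- The edges of the copy of `H` given by the embedding `f`. -/
def edges {H G : OGraph} (f : Emb H G) : Set (Sym2 (Fin G.n)) := Sym2.map f.1 '' H.G.edgeSet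

/-- The probability that the random embedding `μ` uses the edge `e`. -/
noncomputable def hit {H G : OGraph} (μ : PMF (Emb H G)) (e : Sym2 (Fin G.n)) : ℝ :=
  (μ.toOuterMeasure {f | e ∈ edges f}).toReal

/-- The largest probability that an edge of `G` is used by the random embedding `μ`. -/
noncomputable def maxHit {H G : OGraph} (μ : PMF (Emb H G)) : ℝ := ⨆ e : G.G.edgeSet, hit μ e

theorem edges_subset {H G : OGraph} (f : Emb H G) : edges f ⊆ G.G.edgeSet := by
  rintro _ ⟨e, he, rfl⟩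
  induction e with
  | _ u v => exact f.2 u v he

theorem ncard_edges {H G : OGraph} (f : Emb H G) : (edges f).ncard = H.e :=
  Set.ncard_image_of_injective _ (Sym2.map.injective f.1.injective)

theorem bddAbove_rel (F G : OGraph) :
    BddAbove {x : ℝ | ∃ G' : G.G.Subgraph, ¬ EmbedsIn F G G' ∧
      x = (G'.edgeSet.ncard : ℝ) / (G.e : ℝ)} := by
  refine ⟨1, ?_⟩
  rintro x ⟨G', -, rfl⟩
  apply div_le_one_of_le₀ _ (Nat.cast_nonneg _)
  exact_mod_cast Set.ncard_le_ncard G'.edgeSet_subset (Set.toFinite _)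

theorem rel_nonneg (F G : OGraph) : 0 ≤ rel F G := by
  apply Real.sSup_nonneg
  rintro x ⟨G', -, rfl⟩
  positivity

/-- The complete ordered graph. -/
def K (m : ℕ) : OGraph := ⟨m, ⊤⟩

theorem K_edges (m : ℕ) : m ≤ (K (m + 1)).e := by
  classical
  have h1 : (K (m + 1)).e = (m + 1).choose 2 := by
    unfold OGraph.e K
    rw [← SimpleGraph.coe_edgeFinset, Set.ncard_coe_finset,
      SimpleGraph.card_edgeFinset_top_eq_card_choose_two, Fintype.card_fin]
  rw [h1, Nat.choose_two_right, Nat.add_sub_cancel, Nat.le_div_iff_mul_le (by norm_num)]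
  rcases m with _ | m
  · simp
  · nlinarith

/-- Only the complete graph itself contains itself. -/
theorem rho_K_le (m : ℕ) : rho (K (m + 2)) ≤ 1 - 1 / ((K (m + 2)).e : ℝ) := by
  have he : 1 ≤ (K (m + 2)).e := le_trans (by omega) (K_edges (m + 1))
  have he' : (0 : ℝ) < (K (m + 2)).e := by exact_mod_cast he
  have h1 : rho (K (m + 2)) ≤ rel (K (m + 2)) (K (m + 2)) := by
    apply csInf_le
    · refine ⟨0, ?_⟩
      rintro x ⟨G, -, rfl⟩
      exact rel_nonneg _ _
    · exact ⟨_, he, rfl⟩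
  refine h1.trans (csSup_le ?_ ?_)
  · refine ⟨_, ⊥, ?_, rfl⟩
    rintro ⟨f, hf, -⟩
    exact hf (0 : Fin (m + 2))
  · rintro x ⟨G', hG', rfl⟩
    have hlt : G'.edgeSet.ncard < (K (m + 2)).e := by
      apply Set.ncard_lt_ncard _ (Set.toFinite _)
      refine lt_of_le_of_ne G'.edgeSet_subset fun heq => hG' ?_
      have hadj : ∀ u v : Fin (m + 2), u ≠ v → G'.Adj u v := by
        intro u v huv
        have h2 : s(u, v) ∈ (⊤ : SimpleGraph (Fin (m + 2))).edgeSet := huv
        have h3 : s(u, v) ∈ G'.edgeSet := heq.symm ▸ h2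
        exact h3
      refine ⟨RelEmbedding.refl _, fun u => ?_, fun u v huv => hadj u v huv⟩
      obtain ⟨v, hv⟩ := exists_ne (α := Fin (m + 2)) u
      exact (hadj u v hv.symm).fst_mem
    have : (G'.edgeSet.ncard : ℝ) + 1 ≤ (K (m + 2)).e := by exact_mod_cast hlt
    rw [div_le_iff₀ he', sub_mul, one_mul, div_mul_cancel₀ _ he'.ne']
    linarith

/-- If the whole graph is `F`-free, the ratio is `1`. -/
theorem exists_emb {F G : OGraph} (hG : 1 ≤ G.e) (h : rel F G < 1) : Nonempty (Emb F G) := by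
  by_contra hne
  have h1 : ¬ EmbedsIn F G ⊤ := by
    rintro ⟨f, -, hf⟩
    exact hne ⟨⟨f, fun u v huv => hf u v huv⟩⟩
  have h2 : (((⊤ : G.G.Subgraph).edgeSet.ncard : ℝ) / (G.e : ℝ)) ≤ rel F G :=
    le_csSup (bddAbove_rel F G) ⟨⊤, h1, rfl⟩
  rw [SimpleGraph.Subgraph.edgeSet_top] at h2
  have h3 : (0 : ℝ) < G.e := by exact_mod_cast hG
  have h4 : ((G.G.edgeSet.ncard : ℝ) / (G.e : ℝ)) = 1 := div_self h3.ne'
  rw [h4] at h2
  linarith

/-- Many edge-disjoint copies. -/
theorem many {F G : OGraph} (hG : 1 ≤ G.e) {c : ℝ} (hc : 0 < c) (h : rel F G < 1 - c) :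
    ∀ N : ℕ, (N : ℝ) * F.e ≤ c * G.e → ∃ φ : ℕ → Emb F G, ∀ i < N, ∀ j < N, i ≠ j →
      Disjoint (edges (φ i)) (edges (φ j)) := by
  intro N
  obtain ⟨f₀⟩ := exists_emb hG (by linarith : rel F G < 1)
  induction N with
  | zero => exact fun _ => ⟨fun _ => f₀, fun i hi => absurd hi (Nat.not_lt_zero _)⟩
  | succ N ih =>
    intro hN
    push_cast at hN
    have hFe : (0 : ℝ) ≤ F.e := Nat.cast_nonneg _
    obtain ⟨φ, hφ⟩ := ih (by nlinarith)
    let R : Set (Sym2 (Fin G.n)) := ⋃ i ∈ Finset.range N, edges (φ i)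
    have hR : (R.ncard : ℝ) ≤ N * F.e := by
      have h1 : R.ncard ≤ ∑ i ∈ Finset.range N, (edges (φ i)).ncard :=
        Finset.set_ncard_biUnion_le _ _
      have h2 : ∑ i ∈ Finset.range N, (edges (φ i)).ncard = N * F.e := by
        rw [Finset.sum_congr rfl fun i _ => ncard_edges (φ i), Finset.sum_const,
          Finset.card_range, smul_eq_mul]
      rw [h2] at h1
      exact_mod_cast h1
    have hG0 : (0 : ℝ) < G.e := by exact_mod_cast hG
    have hemb : EmbedsIn F G ((⊤ : G.G.Subgraph).deleteEdges R) := by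
      by_contra hfree
      have h1 : ((((⊤ : G.G.Subgraph).deleteEdges R).edgeSet.ncard : ℝ) / (G.e : ℝ)) ≤ rel F G :=
        le_csSup (bddAbove_rel F G) ⟨_, hfree, rfl⟩
      have h2 : ((⊤ : G.G.Subgraph).deleteEdges R).edgeSet = G.G.edgeSet \ R := by
        ext e
        induction e with
        | _ u v => simp [SimpleGraph.Subgraph.deleteEdges_adj]
      rw [h2] at h1
      have h3 : (G.e : ℝ) ≤ ((G.G.edgeSet \ R).ncard : ℝ) + R.ncard := by
        have : G.G.edgeSet.ncard ≤ (G.G.edgeSet \ R).ncard + R.ncard := by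
          have := Set.le_ncard_sdiff R G.G.edgeSet (Set.toFinite _)
          omega
        exact_mod_cast this
      have h4 : ((G.G.edgeSet \ R).ncard : ℝ) < (1 - c) * G.e := by
        have := lt_of_le_of_lt h1 h
        rwa [div_lt_iff₀ hG0] at this
      nlinarith
    obtain ⟨f, -, hf⟩ := hemb
    have hfG : ∀ u v, F.G.Adj u v → G.G.Adj (f u) (f v) ∧ s(f u, f v) ∉ R := by
      intro u v huv
      have := hf u v huv
      rw [SimpleGraph.Subgraph.deleteEdges_adj] at this
      exact ⟨this.1, this.2⟩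
    let g : Emb F G := ⟨f, fun u v huv => (hfG u v huv).1⟩
    have hg : ∀ i < N, Disjoint (edges (φ i)) (edges g) := by
      intro i hi
      rw [Set.disjoint_right]
      rintro _ ⟨e, he, rfl⟩ hmem
      induction e with
      | _ u v =>
        exact (hfG u v he).2 (Set.mem_biUnion (Finset.mem_coe.2 (Finset.mem_range.2 hi)) hmem)
    refine ⟨fun i => if i < N then φ i else g, fun i hi j hj hij => ?_⟩
    by_cases h1 : i < N
    · by_cases h2 : j < N
      · simp only [h1, h2, if_true]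
        exact hφ i h1 j h2 hij
      · simp only [h1, h2, if_true, if_false]
        exact hg i h1
    · by_cases h2 : j < N
      · simp only [h1, h2, if_true, if_false]
        exact (hg j h2).symm
      · omega


variable {Gs : ℕ → OGraph}

/-- The number of edges of a universal sequence tends to infinity. -/
theorem edges_large (hu : Universal Gs) (m : ℕ) : ∀ᶠ n in atTop, m ≤ (Gs n).e := by
  have h1 : rho (K (m + 2)) < 1 := by
    have := rho_K_le m
    have he : 1 ≤ (K (m + 2)).e := le_trans (by omega) (K_edges (m + 1))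
    have he' : (0 : ℝ) < (K (m + 2)).e := by exact_mod_cast he
    have : 0 < 1 / ((K (m + 2)).e : ℝ) := by positivity
    linarith
  filter_upwards [(hu.2 (K (m + 2))).eventually (gt_mem_nhds h1)] with n hn
  obtain ⟨f⟩ := exists_emb (hu.1 n) hn
  have h2 : (edges f).ncard ≤ (Gs n).e := Set.ncard_le_ncard (edges_subset f) (Set.toFinite _)
  rw [ncard_edges] at h2
  have h3 : m + 1 ≤ (K (m + 2)).e := K_edges (m + 1)
  omega

/-- Universal sequences contain many edge-disjoint copies of every ordered graph. -/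
theorem many_copies (hu : Universal Gs) (H : OGraph) (N : ℕ) :
    ∀ᶠ n in atTop, ∃ φ : ℕ → Emb H (Gs n), ∀ i < N, ∀ j < N, i ≠ j →
      Disjoint (edges (φ i)) (edges (φ j)) := by
  let F := K (H.n + 2)
  have he : 1 ≤ F.e := le_trans (by omega) (K_edges (H.n + 1))
  have he' : (0 : ℝ) < F.e := by exact_mod_cast he
  have hc : (0 : ℝ) < 1 / (2 * F.e) := by positivity
  have h1 : rho F < 1 - 1 / (2 * F.e) := by
    refine lt_of_le_of_lt (rho_K_le H.n) ?_
    have : 1 / (2 * (F.e : ℝ)) < 1 / (F.e : ℝ) := by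
      apply one_div_lt_one_div_of_lt he'
      linarith
    exact sub_lt_sub_left this 1
  filter_upwards [(hu.2 F).eventually (gt_mem_nhds h1), edges_large hu (2 * N * F.e ^ 2)] with n hn hm
  have hNe : (N : ℝ) * F.e ≤ 1 / (2 * F.e) * (Gs n).e := by
    rw [div_mul_eq_mul_div, one_mul, le_div_iff₀ (by positivity)]
    have : ((2 * N * F.e ^ 2 : ℕ) : ℝ) ≤ (Gs n).e := by exact_mod_cast hm
    push_cast at this
    nlinarith
  obtain ⟨φ, hφ⟩ := many (hu.1 n) hc hn N hNe
  let ι : Fin H.n ↪o Fin F.n := Fin.castLEOrderEmb (show H.n ≤ H.n + 2 by omega)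
  have hι : ∀ u v, H.G.Adj u v → F.G.Adj (ι u) (ι v) := fun u v huv h =>
    huv.ne (ι.injective h)
  let ψ : ℕ → Emb H (Gs n) := fun i =>
    ⟨ι.trans (φ i).1, fun u v huv => (φ i).2 _ _ (hι u v huv)⟩
  have hsub : ∀ i, edges (ψ i) ⊆ edges (φ i) := by
    rintro i _ ⟨e, he, rfl⟩
    induction e with
    | _ u v => exact ⟨s(ι u, ι v), hι u v he, rfl⟩
  exact ⟨ψ, fun i hi j hj hij => (hφ i hi j hj hij).mono (hsub i) (hsub j)⟩

theorem hit_nonneg {H G : OGraph} (μ : PMF (Emb H G)) (e : Sym2 (Fin G.n)) : 0 ≤ hit μ e :=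
  ENNReal.toReal_nonneg

theorem maxHit_nonneg {H G : OGraph} (μ : PMF (Emb H G)) : 0 ≤ maxHit μ :=
  Real.iSup_nonneg fun e => hit_nonneg μ e

/-- A uniformly random one of `N` edge-disjoint copies. -/
theorem exists_random {H G : OGraph} (N : ℕ) (φ : ℕ → Emb H G)
    (hφ : ∀ i < N + 1, ∀ j < N + 1, i ≠ j → Disjoint (edges (φ i)) (edges (φ j))) :
    ∃ μ : PMF (Emb H G), maxHit μ ≤ 1 / ((N : ℝ) + 1) := by
  classical
  refine ⟨PMF.map (fun i : Fin (N + 1) => φ i) (PMF.uniformOfFintype (Fin (N + 1))), ?_⟩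
  apply Real.iSup_le _ (by positivity)
  intro e
  unfold hit
  rw [PMF.toOuterMeasure_map_apply, PMF.toOuterMeasure_uniformOfFintype_apply, ENNReal.toReal_div,
    Fintype.card_fin]
  push_cast
  simp only [ENNReal.toReal_natCast]
  have h1 : Fintype.card ((fun i : Fin (N + 1) => φ i) ⁻¹' {f | (e : Sym2 (Fin G.n)) ∈ edges f}) ≤ 1 := by
    rw [Fintype.card_le_one_iff_subsingleton]
    constructor
    rintro ⟨i, hi⟩ ⟨j, hj⟩
    by_contra hne
    have hij : (i : ℕ) ≠ j := fun h => hne (Subtype.ext (Fin.ext h))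
    exact Set.disjoint_left.1 (hφ i i.2 j j.2 hij) hi hj
  have h2 : ((Fintype.card ((fun i : Fin (N + 1) => φ i) ⁻¹' {f | (e : Sym2 (Fin G.n)) ∈ edges f}) : ℕ) : ℝ) ≤ 1 := by
    exact_mod_cast h1
  have h3 : (ENNReal.toReal ((N : ENNReal) + 1)) = (N : ℝ) + 1 := by
    rw [ENNReal.toReal_add (ENNReal.natCast_ne_top N) ENNReal.one_ne_top]
    simp
  rw [h3]
  gcongr

theorem result (Gs : ℕ → OGraph) (hu : Universal Gs) (H : OGraph) :
    ∃ (n₀ : ℕ) (Φ : ∀ n, PMF (Emb H (Gs (n₀ + n)))),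
      Tendsto (fun n => maxHit (Φ n) - (H.e : ℝ) / ((Gs (n₀ + n)).e : ℝ)) atTop (𝓝 0) := by
  classical
  have hex : ∀ N : ℕ, ∀ᶠ n in atTop, ∃ μ : PMF (Emb H (Gs n)), maxHit μ ≤ 1 / ((N : ℝ) + 1) := by
    intro N
    filter_upwards [many_copies hu H (N + 1)] with n hn
    obtain ⟨φ, hφ⟩ := hn
    exact exists_random N φ hφ
  obtain ⟨n₀, hn₀⟩ := eventually_atTop.1 (hex 0)
  have hne : ∀ n, ∃ μ : PMF (Emb H (Gs (n₀ + n))), True := fun n => by
    obtain ⟨μ, -⟩ := hn₀ (n₀ + n) (by omega)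
    exact ⟨μ, trivial⟩
  -- nearly optimal random embeddings
  have hopt : ∀ n, ∃ μ : PMF (Emb H (Gs (n₀ + n))),
      ∀ ν : PMF (Emb H (Gs (n₀ + n))), maxHit μ < maxHit ν + 1 / ((n : ℝ) + 1) := by
    intro n
    have hS : (Set.range fun ν : PMF (Emb H (Gs (n₀ + n))) => maxHit ν).Nonempty := by
      obtain ⟨μ, -⟩ := hne n
      exact ⟨_, μ, rfl⟩
    have hB : BddBelow (Set.range fun ν : PMF (Emb H (Gs (n₀ + n))) => maxHit ν) := by
      refine ⟨0, ?_⟩
      rintro _ ⟨ν, rfl⟩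
      exact maxHit_nonneg ν
    obtain ⟨_, ⟨μ, rfl⟩, hμ⟩ := Real.lt_sInf_add_pos hS
      (show (0 : ℝ) < 1 / ((n : ℝ) + 1) by positivity)
    refine ⟨μ, fun ν => lt_of_lt_of_le hμ ?_⟩
    have := csInf_le hB ⟨ν, rfl⟩
    linarith
  choose Φ hΦ using hopt
  refine ⟨n₀, Φ, ?_⟩
  have h1 : Tendsto (fun n => maxHit (Φ n)) atTop (𝓝 0) := by
    rw [Metric.tendsto_atTop]
    intro ε hε
    obtain ⟨N, hN⟩ := exists_nat_one_div_lt (half_pos hε)
    obtain ⟨m, hm⟩ := eventually_atTop.1 (hex N)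
    refine ⟨max m N, fun n hn => ?_⟩
    have h2 : m ≤ n := le_trans (le_max_left _ _) hn
    have h3 : N ≤ n := le_trans (le_max_right _ _) hn
    obtain ⟨ν, hν⟩ := hm (n₀ + n) (by omega)
    have h4 := hΦ n ν
    have h5 : 1 / ((n : ℝ) + 1) ≤ 1 / ((N : ℝ) + 1) := by
      apply one_div_le_one_div_of_le (by positivity)
      have : (N : ℝ) ≤ n := by exact_mod_cast h3
      linarith
    rw [Real.dist_eq, sub_zero, abs_of_nonneg (maxHit_nonneg _)]
    linarith
  have h2 : Tendsto (fun n => (H.e : ℝ) / ((Gs (n₀ + n)).e : ℝ)) atTop (𝓝 0) := by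
    apply Tendsto.const_div_atTop
    apply tendsto_natCast_atTop_atTop.comp
    rw [tendsto_atTop]
    intro b
    obtain ⟨m, hm⟩ := eventually_atTop.1 (edges_large hu b)
    filter_upwards [eventually_ge_atTop m] with n hn
    exact hm (n₀ + n) (by omega)
  simpa using h1.sub h2

end Pool.Agent.Results.MP_37b92f_co.RandomEmbeddings
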